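import Mathlib

/-!
# [H23 US Bits] A finite coloured graph with the extension property for sets of at most `k` vertices (Mathlib only)

Counting. `Ω = P → P → Bool`, `bit ω p q = xor (ω p q) (ω q p)`. For `F`, `S` and a set `C` of candidates disjoint
from `F`, the `ω` for which no `m ∈ C` has the pattern `S` on `F` are at most
`L ^ #F * ((L - L / 2 ^ #F) ^ #C * L ^ (#P - #F - #C))`, `L = 2 ^ #P`: fix the rows in `F`.
-/

set_option autoImplicit false

open Finset

namespace Pool.Agent.H23.US

/-- The symmetric bit. -/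
def bit {P : Type} (ω : P → P → Bool) (p q : P) : Bool := xor (ω p q) (ω q p)

theorem bit_comm {P : Type} (ω : P → P → Bool) (p q : P) : bit ω p q = bit ω q p := by
  unfold bit
  exact Bool.xor_comm _ _

private theorem pattern_card {P : Type} [Fintype P] [DecidableEq P] (F S : Finset P) (c : P → Bool) :
    2 ^ (Fintype.card P - F.card) ≤
      (univ.filter fun r : P → Bool => ∀ p ∈ F, (xor (r p) (c p) = true ↔ p ∈ S)).card := by
  have h : (Fintype.piFinset fun p : P => if p ∈ F then {xor (decide (p ∈ S)) (c p)} else (univ : Finset Bool)) ⊆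
      univ.filter fun r : P → Bool => ∀ p ∈ F, (xor (r p) (c p) = true ↔ p ∈ S) := by
    intro r hr
    rw [Fintype.mem_piFinset] at hr
    rw [mem_filter]
    refine ⟨mem_univ _, fun p hp => ?_⟩
    have h1 := hr p
    rw [if_pos hp, mem_singleton] at h1
    rw [h1, Bool.xor_assoc, Bool.xor_self, Bool.xor_false]
    simp
  refine le_trans (le_of_eq ?_) (card_le_card h)
  rw [Fintype.card_piFinset]
  have : ∀ p : P, (if p ∈ F then {xor (decide (p ∈ S)) (c p)} else (univ : Finset Bool)).card =
      if p ∈ F then 1 else 2 := by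
    intro p
    split_ifs <;> simp
  simp only [this]
  rw [prod_ite, prod_const, prod_const, one_pow, one_mul]
  congr 1
  rw [← card_univ, ← card_sdiff_of_subset (subset_univ F)]
  congr 1
  ext p
  simp

/-- The number of bad choices. -/
theorem bad_card {P : Type} [Fintype P] [DecidableEq P] (F S C : Finset P) (hC : Disjoint C F) :
    (univ.filter fun ω : P → P → Bool => ∀ m ∈ C, ¬ ∀ p ∈ F, (bit ω m p = true ↔ p ∈ S)).card ≤
      ((2 ^ Fintype.card P - 2 ^ (Fintype.card P - F.card)) ^ C.card *
        (2 ^ Fintype.card P) ^ (Fintype.card P - F.card - C.card)) * (2 ^ Fintype.card P) ^ F.card := by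
  classical
  set f : (P → P → Bool) → (P → P → Bool) := fun ω m => if m ∈ F then ω m else fun _ => false with hf
  set B := univ.filter fun ω : P → P → Bool => ∀ m ∈ C, ¬ ∀ p ∈ F, (bit ω m p = true ↔ p ∈ S) with hB
  have h1 : (B.image f).card ≤ (2 ^ Fintype.card P) ^ F.card := by
    have h2 : B.image f ⊆
        Fintype.piFinset fun m : P => if m ∈ F then (univ : Finset (P → Bool)) else {fun _ => false} := by
      intro g hg
      obtain ⟨ω, _, rfl⟩ := mem_image.1 hg
      rw [Fintype.mem_piFinset]
      intro m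
      by_cases hm : m ∈ F
      · rw [if_pos hm]
        exact mem_univ _
      · rw [if_neg hm, mem_singleton, hf]
        simp only [if_neg hm]
    refine le_trans (card_le_card h2) (le_of_eq ?_)
    rw [Fintype.card_piFinset]
    have : ∀ m : P, (if m ∈ F then (univ : Finset (P → Bool)) else {fun _ => false}).card =
        if m ∈ F then 2 ^ Fintype.card P else 1 := by
      intro m
      split_ifs <;> simp
    simp only [this]
    rw [prod_ite, prod_const, prod_const, one_pow, mul_one]
    congr 1
    congr 1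
    ext p
    simp
  have h3 : ∀ g ∈ B.image f, (B.filter fun ω => f ω = g).card ≤
      (2 ^ Fintype.card P - 2 ^ (Fintype.card P - F.card)) ^ C.card *
        (2 ^ Fintype.card P) ^ (Fintype.card P - F.card - C.card) := by
    intro g _
    have h4 : (B.filter fun ω => f ω = g) ⊆ Fintype.piFinset fun m : P =>
        if m ∈ F then {g m} else if m ∈ C then
          univ.filter (fun r : P → Bool => ¬ ∀ p ∈ F, (xor (r p) (g p m) = true ↔ p ∈ S)) else univ := by
      intro ω hω
      rw [mem_filter] at hω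
      obtain ⟨hω, hg⟩ := hω
      rw [hB, mem_filter] at hω
      rw [Fintype.mem_piFinset]
      intro m
      by_cases hm : m ∈ F
      · rw [if_pos hm, mem_singleton, ← hg, hf]
        simp only [if_pos hm]
      · rw [if_neg hm]
        by_cases hm2 : m ∈ C
        · rw [if_pos hm2, mem_filter]
          refine ⟨mem_univ _, ?_⟩
          intro hall
          apply hω.2 m hm2
          intro p hp
          have h5 := hall p hp
          have h6 : g p = ω p := by
            rw [← hg, hf]
            simp only [if_pos hp]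
          rw [h6] at h5
          exact h5
        · rw [if_neg hm2]
          exact mem_univ _
    refine le_trans (card_le_card h4) ?_
    rw [Fintype.card_piFinset]
    have h7 : ∀ m : P, (if m ∈ F then {g m} else if m ∈ C then
          univ.filter (fun r : P → Bool => ¬ ∀ p ∈ F, (xor (r p) (g p m) = true ↔ p ∈ S)) else univ).card ≤
        if m ∈ F then 1 else if m ∈ C then 2 ^ Fintype.card P - 2 ^ (Fintype.card P - F.card)
          else 2 ^ Fintype.card P := by
      intro m
      by_cases hm : m ∈ F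
      · rw [if_pos hm, if_pos hm, card_singleton]
      · rw [if_neg hm, if_neg hm]
        by_cases hm2 : m ∈ C
        · rw [if_pos hm2, if_pos hm2]
          have h8 := pattern_card F S fun p => g p m
          have h9 := card_filter_add_card_filter_not (s := (univ : Finset (P → Bool)))
            (fun r : P → Bool => ∀ p ∈ F, (xor (r p) (g p m) = true ↔ p ∈ S))
          have h10 : (univ : Finset (P → Bool)).card = 2 ^ Fintype.card P := by
            simp
          omega
        · rw [if_neg hm2, if_neg hm2]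
          simp
    refine le_trans (prod_le_prod' fun m _ => h7 m) (le_of_eq ?_)
    rw [prod_ite, prod_const_one, one_mul, prod_ite, prod_const, prod_const]
    have e1 : ((univ.filter fun m => ¬ m ∈ F).filter fun m => m ∈ C) = C := by
      ext m
      simp only [mem_filter, mem_univ, true_and]
      constructor
      · exact fun h => h.2
      · exact fun h => ⟨fun h' => (Finset.disjoint_left.1 hC h h'), h⟩
    have e2 : ((univ.filter fun m => ¬ m ∈ F).filter fun m => ¬ m ∈ C) = (univ \ F) \ C := by
      ext m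
      simp
    have e3 : ((univ \ F) \ C : Finset P).card = Fintype.card P - F.card - C.card := by
      rw [card_sdiff_of_subset, card_sdiff_of_subset (subset_univ F), card_univ]
      intro m hm
      rw [mem_sdiff]
      exact ⟨mem_univ _, Finset.disjoint_left.1 hC hm⟩
    rw [e1, e2, e3]
  calc B.card ≤ _ * (B.image f).card := card_le_mul_card_image B _ h3
    _ ≤ _ := Nat.mul_le_mul_left _ h1

/-- The same bound in the reals. -/
private theorem bad_real {P : Type} [Fintype P] [DecidableEq P] (k : ℕ) (F S C : Finset P) (hC : Disjoint C F)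
    (hF : F.card = k) :
    ((univ.filter fun ω : P → P → Bool => ∀ m ∈ C, ¬ ∀ p ∈ F, (bit ω m p = true ↔ p ∈ S)).card : ℝ) ≤
      ((2 : ℝ) ^ Fintype.card P) ^ Fintype.card P * (1 - (1 / 2) ^ k) ^ C.card := by
  have h1 := bad_card F S C hC
  have hn : C.card + F.card ≤ Fintype.card P := by
    rw [← card_union_of_disjoint hC]
    exact card_le_univ _
  rw [hF] at h1 hn
  have h2 : ((univ.filter fun ω : P → P → Bool => ∀ m ∈ C, ¬ ∀ p ∈ F, (bit ω m p = true ↔ p ∈ S)).card : ℝ) ≤
      ((((2 ^ Fintype.card P - 2 ^ (Fintype.card P - k)) ^ C.card *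
        (2 ^ Fintype.card P) ^ (Fintype.card P - k - C.card)) * (2 ^ Fintype.card P) ^ k : ℕ) : ℝ) := by
    exact_mod_cast h1
  refine le_trans h2 (le_of_eq ?_)
  have h3 : (2 : ℕ) ^ (Fintype.card P - k) ≤ 2 ^ Fintype.card P := Nat.pow_le_pow_right (by norm_num) (by omega)
  push_cast [Nat.cast_sub h3]
  have h4 : (2 : ℝ) ^ Fintype.card P - 2 ^ (Fintype.card P - k) =
      2 ^ Fintype.card P * (1 - (1 / 2) ^ k) := by
    have h5 : (2 : ℝ) ^ Fintype.card P = 2 ^ (Fintype.card P - k) * 2 ^ k := by
      rw [← pow_add]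
      congr 1
      omega
    have h6 : (2 : ℝ) ^ k * (1 / 2) ^ k = 1 := by
      rw [← mul_pow]
      norm_num
    rw [mul_sub, mul_one]
    congr 1
    rw [h5, mul_assoc, h6, mul_one]
  rw [h4, mul_pow]
  have h7 : ((2 : ℝ) ^ Fintype.card P) ^ Fintype.card P =
      ((2 : ℝ) ^ Fintype.card P) ^ C.card * ((2 : ℝ) ^ Fintype.card P) ^ (Fintype.card P - k - C.card) *
        ((2 : ℝ) ^ Fintype.card P) ^ k := by
    rw [← pow_add, ← pow_add]
    congr 1
    omega
  rw [h7]
  ring

/-- The coloured extension property, sets of exactly `k` points. -/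
private theorem exists_bits_eq (T : Type) [Fintype T] [DecidableEq T] [Nonempty T] (k : ℕ) (hk : 1 ≤ k) :
    ∃ (M : ℕ) (ω : T × Fin M → T × Fin M → Bool), k ≤ M ∧ ∀ F : Finset (T × Fin M), F.card = k →
      ∀ S : Finset (T × Fin M), S ⊆ F → ∀ τ : T, ∃ m, (τ, m) ∉ F ∧ ∀ p ∈ F, (bit ω (τ, m) p = true ↔ p ∈ S) := by
  classical
  set r : ℝ := 1 - (1 / 2) ^ k with hr
  have hr0 : 0 < r := by
    have : ((1 : ℝ) / 2) ^ k < 1 := pow_lt_one₀ (by norm_num) (by norm_num) (by omega)
    rw [hr]
    linarith
  have hr1 : r < 1 := by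
    have : (0 : ℝ) < (1 / 2) ^ k := by positivity
    rw [hr]
    linarith
  set t : ℝ := (Fintype.card T : ℝ) with ht
  have ht0 : 0 < t := by
    rw [ht]
    exact_mod_cast Fintype.card_pos
  have hlim := tendsto_pow_const_mul_const_pow_of_abs_lt_one k (r := r) (by rw [abs_of_pos hr0]; exact hr1)
  have he : 0 < r ^ k / (t ^ k * 2 ^ k * t) := by positivity
  obtain ⟨M, hM1, hM2⟩ := ((hlim.eventually (gt_mem_nhds he)).and (Filter.eventually_ge_atTop k)).exists
  refine ⟨M, ?_⟩
  by_contra hno
  push Not at hno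
  -- every `ω` is bad
  have hcov : (univ : Finset (T × Fin M → T × Fin M → Bool)) ⊆
      (powersetCard k (univ : Finset (T × Fin M))).biUnion fun F => F.powerset.biUnion fun S =>
        (univ : Finset T).biUnion fun τ => univ.filter fun ω : T × Fin M → T × Fin M → Bool =>
          ∀ m ∈ (univ.image fun j : Fin M => (τ, j)) \ F, ¬ ∀ p ∈ F, (bit ω m p = true ↔ p ∈ S) := by
    intro ω _
    obtain ⟨F, hF, S, hS, τ, hτ⟩ := hno ω hM2
    simp only [mem_biUnion, mem_powersetCard, mem_powerset]
    refine ⟨F, ⟨subset_univ _, hF⟩, S, hS, τ, mem_univ _, ?_⟩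
    rw [mem_filter]
    refine ⟨mem_univ _, ?_⟩
    intro m hm hall
    rw [mem_sdiff, mem_image] at hm
    obtain ⟨⟨j, _, rfl⟩, hm2⟩ := hm
    obtain ⟨p, hp, hp2⟩ := hτ j hm2
    have := hall p hp
    rcases hp2 with ⟨h1, h2⟩ | ⟨h1, h2⟩
    · exact h2 (this.1 h1)
    · exact h1 (this.2 h2)
  have hcard := card_le_card hcov
  set L : ℝ := (2 : ℝ) ^ Fintype.card (T × Fin M) with hL
  have hL0 : 0 < L := by
    rw [hL]
    positivity
  set n := Fintype.card (T × Fin M) with hn
  have hnt : (n : ℝ) = t * M := by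
    rw [hn, ht, Fintype.card_prod, Fintype.card_fin]
    push_cast
    ring
  have hb1 : ∀ F ∈ powersetCard k (univ : Finset (T × Fin M)), ∀ S ∈ F.powerset, ∀ τ : T,
      ((univ.filter fun ω : T × Fin M → T × Fin M → Bool =>
          ∀ m ∈ (univ.image fun j : Fin M => (τ, j)) \ F, ¬ ∀ p ∈ F, (bit ω m p = true ↔ p ∈ S)).card : ℝ) ≤
        L ^ n * r ^ (M - k) := by
    intro F hF S hS τ
    rw [mem_powersetCard] at hF
    have h1 := bad_real k F S ((univ.image fun j : Fin M => (τ, j)) \ F) sdiff_disjoint hF.2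
    refine le_trans h1 ?_
    have h2 : M - k ≤ ((univ.image fun j : Fin M => (τ, j)) \ F).card := by
      have h3 := le_card_sdiff F (univ.image fun j : Fin M => (τ, j))
      have h4 : (univ.image fun j : Fin M => (τ, j)).card = M := by
        rw [card_image_of_injective, card_univ, Fintype.card_fin]
        intro i j hij
        exact (Prod.mk.inj hij).2
      rw [h4, hF.2] at h3
      exact h3
    exact mul_le_mul_of_nonneg_left (pow_le_pow_of_le_one hr0.le hr1.le h2) (by positivity)
  have hb2 : ((univ : Finset (T × Fin M → T × Fin M → Bool)).card : ℝ) ≤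
      (n : ℝ) ^ k * (2 ^ k * (t * (L ^ n * r ^ (M - k)))) := by
    refine le_trans (Nat.cast_le.2 hcard) ?_
    refine le_trans (Nat.cast_le.2 card_biUnion_le) ?_
    push_cast
    refine le_trans (sum_le_card_nsmul _ _ (2 ^ k * (t * (L ^ n * r ^ (M - k)))) ?_) ?_
    · intro F hF
      refine le_trans (Nat.cast_le.2 card_biUnion_le) ?_
      push_cast
      refine le_trans (sum_le_card_nsmul _ _ (t * (L ^ n * r ^ (M - k))) ?_) ?_
      · intro S hS
        refine le_trans (Nat.cast_le.2 card_biUnion_le) ?_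
        push_cast
        refine le_trans (sum_le_card_nsmul _ _ (L ^ n * r ^ (M - k)) fun τ _ => hb1 F hF S hS τ) ?_
        rw [card_univ, nsmul_eq_mul]
      · rw [card_powerset, (mem_powersetCard.1 hF).2, nsmul_eq_mul]
        push_cast
        exact le_rfl
    · rw [card_powersetCard, card_univ, nsmul_eq_mul]
      refine mul_le_mul_of_nonneg_right ?_ (by positivity)
      exact_mod_cast Nat.choose_le_pow _ _
  have hΩ : ((univ : Finset (T × Fin M → T × Fin M → Bool)).card : ℝ) = L ^ n := by
    rw [card_univ, Fintype.card_fun, Fintype.card_fun, Fintype.card_bool]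
    push_cast
    rfl
  rw [hΩ, hnt] at hb2
  have hLn : 0 < L ^ n := by positivity
  have h8 : r ^ M = r ^ (M - k) * r ^ k := by
    rw [← pow_add]
    congr 1
    omega
  rw [lt_div_iff₀ (by positivity), h8] at hM1
  have h9 : (M : ℝ) ^ k * r ^ (M - k) * (t ^ k * 2 ^ k * t) < 1 := by
    have h10 : 0 < r ^ k := by positivity
    have h11 : ((M : ℝ) ^ k * r ^ (M - k) * (t ^ k * 2 ^ k * t)) * r ^ k < 1 * r ^ k := by
      rw [one_mul]
      calc ((M : ℝ) ^ k * r ^ (M - k) * (t ^ k * 2 ^ k * t)) * r ^ k =
          (M : ℝ) ^ k * (r ^ (M - k) * r ^ k) * (t ^ k * 2 ^ k * t) := by ring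
        _ < r ^ k := hM1
    exact lt_of_mul_lt_mul_right h11 h10.le
  have h12 : (t * (M : ℝ)) ^ k * (2 ^ k * (t * (L ^ n * r ^ (M - k)))) =
      ((M : ℝ) ^ k * r ^ (M - k) * (t ^ k * 2 ^ k * t)) * L ^ n := by
    rw [mul_pow]
    ring
  rw [h12] at hb2
  have h13 : ((M : ℝ) ^ k * r ^ (M - k) * (t ^ k * 2 ^ k * t)) * L ^ n < 1 * L ^ n :=
    mul_lt_mul_of_pos_right h9 hLn
  linarith

/-- **The coloured extension property.** -/
theorem exists_bits (T : Type) [Fintype T] [DecidableEq T] (k : ℕ) :
    ∃ (M : ℕ) (ω : T × Fin M → T × Fin M → Bool), (∀ p q, ω p q = ω q p) ∧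
      ∀ F : Finset (T × Fin M), F.card ≤ k → ∀ S : Finset (T × Fin M), S ⊆ F → ∀ τ : T,
        ∃ m, (τ, m) ∉ F ∧ ∀ p ∈ F, (ω (τ, m) p = true ↔ p ∈ S) := by
  classical
  rcases isEmpty_or_nonempty T with hT | hT
  · exact ⟨0, fun _ _ => true, fun _ _ => rfl, fun _ _ _ _ τ => (hT.false τ).elim⟩
  obtain ⟨M, ω, hM, h⟩ := exists_bits_eq T (k + 1) (by omega)
  refine ⟨M, bit ω, bit_comm ω, ?_⟩
  intro F hF S hS τ
  have h1 : k + 1 ≤ (univ : Finset (T × Fin M)).card := by
    rw [card_univ, Fintype.card_prod, Fintype.card_fin]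
    have : 0 < Fintype.card T := Fintype.card_pos
    nlinarith
  obtain ⟨F', hF1, _, hF2⟩ := exists_subsuperset_card_eq (subset_univ F) (by omega) h1
  obtain ⟨m, hm, hp⟩ := h F' hF2 S (hS.trans hF1) τ
  exact ⟨m, fun h' => hm (hF1 h'), fun p hpF => hp p (hF1 hpF)⟩

end Pool.Agent.H23.US
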