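import Mathlib

/-!
# Sentences `∃ x ∀ y ∃ z θ` in a graph: definition
-/

set_option autoImplicit false

namespace Pool.Agent.H23.US

/-- The places of the points `x` (`a` of them), `y` (`b`), `z` (`c`). -/
abbrev Pl (a b c : ℕ) : Type := Fin a ⊕ Fin b ⊕ Fin c

/-- The statement `∃ x₁ … x_a ∀ y₁ … y_b ∃ z₁ … z_c θ` in the graph `G`. Here `θ` is any condition on four things:
which of the `a + b + c` points are equal, which are adjacent, the distances among `x, y`, and the distances
between the `x i` and the `z j`. A quantifier-free formula of the language of graphs in `a + b + c` variables is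
such a `θ` (it uses only the first two). -/
def EAE {X : Type} (G : SimpleGraph X) (a b c : ℕ)
    (θ : (Pl a b c → Pl a b c → Prop) → (Pl a b c → Pl a b c → Prop) → (Fin a ⊕ Fin b → Fin a ⊕ Fin b → ℕ∞) →
      (Fin a → Fin c → ℕ∞) → Prop) : Prop :=
  ∃ x : Fin a → X, ∀ y : Fin b → X, ∃ z : Fin c → X,
    θ (fun i j => Sum.elim x (Sum.elim y z) i = Sum.elim x (Sum.elim y z) j)
      (fun i j => G.Adj (Sum.elim x (Sum.elim y z) i) (Sum.elim x (Sum.elim y z) j))
      (fun i j => G.edist (Sum.elim x y i) (Sum.elim x y j))
      (fun i j => G.edist (x i) (z j))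

end Pool.Agent.H23.US
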