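import Pool.Agent.H23.US.W

/-!
# [H23 US Iso] `W` is an isometric subgraph, of diameter `N`

Strong induction on `m = d(w, w')`. Take a neighbour `u` of `w` with `d(u, w') = m - 1`. If `u ∉ A`, pull it to
`w₁ ∈ W` with the same distances to `A`, adjacent to `w`, and to `w'` iff `u` is. Then `d(w₁, w') ≤ m - 1` by (6).
-/

set_option autoImplicit false

open Finset

namespace Pool.Agent.H23.US

/-- The subgraph on `W`. -/
abbrev Sub (G : SimpleGraph ℕ) (W : Finset ℕ) : SimpleGraph W := G.comap fun w : W => (w : ℕ)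

/-- The first step of a geodesic. -/
theorem geo {N : ℕ} {G : SimpleGraph ℕ} (h : Univ N G) {x y m : ℕ} (hm : G.dist x y = m + 1) :
    ∃ u, G.Adj x u ∧ G.dist u y = m := by
  obtain ⟨p, hp⟩ := h.1.exists_walk_length_eq_dist x y
  rw [hm] at hp
  cases p with
  | nil => simp at hp
  | @cons _ v _ hadj q =>
    rw [SimpleGraph.Walk.length_cons] at hp
    refine ⟨v, hadj, ?_⟩
    have h1 := SimpleGraph.dist_le q
    have h2 : G.dist x y ≤ G.dist x v + G.dist v y := h.1.dist_triangle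
    rw [SimpleGraph.dist_eq_one_iff_adj.2 hadj, hm] at h2
    omega

private theorem key {N : ℕ} {G : SimpleGraph ℕ} (h : Univ N G) {A W : Finset ℕ} {k : ℕ} (hAW : A ⊆ W)
    (hE : ExtProp G A W k) (hM : MinProp G A W) (hk : 2 ≤ k) :
    ∀ (m : ℕ) (w w' : W), G.dist (w : ℕ) w' = m → (Sub G W).edist w w' ≤ (m : ℕ∞) := by
  classical
  intro m
  induction m using Nat.strong_induction_on with
  | _ m ih =>
    intro w w' hm
    rcases m with _ | m
    · have : w = w' := Subtype.ext (h.1.dist_eq_zero_iff.1 hm)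
      rw [this, SimpleGraph.edist_self]
      exact le_rfl
    rcases m with _ | m
    · have h0 : G.Adj (w : ℕ) w' := SimpleGraph.dist_eq_one_iff_adj.1 hm
      have h1 : (Sub G W).Adj w w' := h0
      rw [SimpleGraph.edist_eq_one_iff_adj.2 h1]
      simp
    -- it suffices to find a neighbour of `w` in `W` at distance at most `m + 1` from `w'`
    suffices hs : ∃ w₁ : W, G.Adj w w₁ ∧ G.dist (w₁ : ℕ) w' ≤ m + 1 by
      obtain ⟨w₁, h1, h2⟩ := hs
      have h3 : (Sub G W).edist w w₁ = 1 := SimpleGraph.edist_eq_one_iff_adj.2 h1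
      have h4 := ih _ (Nat.lt_succ_of_le h2) w₁ w' rfl
      calc (Sub G W).edist w w' ≤ (Sub G W).edist w w₁ + (Sub G W).edist w₁ w' := SimpleGraph.edist_triangle
        _ ≤ 1 + ((m + 1 : ℕ) : ℕ∞) := by
          rw [h3]
          exact add_le_add_right (le_trans h4 (by exact_mod_cast h2)) 1
        _ = ((m + 1 + 1 : ℕ) : ℕ∞) := by
          push_cast
          ring
    obtain ⟨u, hu1, hu2⟩ := geo h hm
    by_cases huA : u ∈ A
    · exact ⟨⟨u, hAW huA⟩, hu1, hu2.le⟩
    -- pull `u`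
    have hadj : ∀ q : ℕ, G.Adj u q → ∀ a ∈ A, G.dist u a ≤ G.dist q a + 1 ∧ G.dist q a ≤ G.dist u a + 1 := by
      intro q hq a _
      have h1 : G.dist u a ≤ G.dist u q + G.dist q a := h.1.dist_triangle
      have h2 : G.dist q a ≤ G.dist q u + G.dist u a := h.1.dist_triangle
      rw [SimpleGraph.dist_eq_one_iff_adj.2 hq] at h1
      rw [SimpleGraph.dist_eq_one_iff_adj.2 hq.symm] at h2
      omega
    have hQ : (({(w : ℕ), (w' : ℕ)} : Finset ℕ) \ A).card ≤ k := by
      refine le_trans (card_le_card sdiff_subset) (le_trans card_le_two hk)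
    obtain ⟨w₁, hw1, hw2, hw3, hw4, hw5⟩ := hE u huA (({(w : ℕ), (w' : ℕ)} : Finset ℕ) \ A)
      ((({(w : ℕ), (w' : ℕ)} : Finset ℕ) \ A).filter fun q => G.Adj u q) (by
        intro q hq
        rw [mem_sdiff] at hq ⊢
        refine ⟨?_, hq.2⟩
        have := hq.1
        rw [mem_insert, mem_singleton] at this
        rcases this with rfl | rfl
        · exact w.2
        · exact w'.2) hQ (filter_subset _ _) (fun q hq => hadj q (mem_filter.1 hq).2)
    -- adjacency to `w` and `w'`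
    have hw : ∀ q : W, ((q : ℕ) = w ∨ (q : ℕ) = w') → (G.Adj w₁ q ↔ G.Adj u q) := by
      intro q hq
      by_cases hqA : (q : ℕ) ∈ A
      · rw [← SimpleGraph.dist_eq_one_iff_adj, ← SimpleGraph.dist_eq_one_iff_adj, hw4 q hqA]
      · have hqQ : (q : ℕ) ∈ ({(w : ℕ), (w' : ℕ)} : Finset ℕ) \ A := by
          rw [mem_sdiff, mem_insert, mem_singleton]
          exact ⟨hq, hqA⟩
        rw [hw5 q hqQ, mem_filter]
        exact ⟨fun h' => h'.2, fun h' => ⟨hqQ, h'⟩⟩
    refine ⟨⟨w₁, hw1⟩, ((hw w (Or.inl rfl)).2 hu1.symm).symm, ?_⟩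
    show G.dist w₁ w' ≤ m + 1
    by_cases hw'A : (w' : ℕ) ∈ A
    · rw [hw4 _ hw'A, hu2]
    rcases Nat.eq_zero_or_pos m with hm0 | hm0
    · subst hm0
      have h1 : G.Adj u w' := SimpleGraph.dist_eq_one_iff_adj.1 hu2
      rw [SimpleGraph.dist_eq_one_iff_adj.2 ((hw w' (Or.inr rfl)).2 h1)]
    · rcases hM w₁ hw1 hw2 w' w'.2 hw'A with h1 | ⟨a, ha, h1⟩
      · omega
      · rw [hw4 a ha] at h1
        have h2 : G.dist u a ≤ G.dist u w' + G.dist (w' : ℕ) a := h.1.dist_triangle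
        have h3 : G.dist (w' : ℕ) a ≤ G.dist (w' : ℕ) u + G.dist u a := h.1.dist_triangle
        have h4 : G.dist (w' : ℕ) u = G.dist u w' := SimpleGraph.dist_comm
        omega

/-- **`W` is isometric.** -/
theorem sub_edist {N : ℕ} {G : SimpleGraph ℕ} (h : Univ N G) {A W : Finset ℕ} {k : ℕ} (hAW : A ⊆ W)
    (hE : ExtProp G A W k) (hM : MinProp G A W) (hk : 2 ≤ k) (w w' : W) :
    (Sub G W).edist w w' = G.edist (w : ℕ) w' := by
  apply le_antisymm
  · rw [← coe_dist h]
    exact key h hAW hE hM hk _ w w' rfl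
  · exact edist_hom_le (⟨fun w : W => (w : ℕ), fun h' => h'⟩ : Sub G W →g G) w w'

/-- The subgraph on `W` is connected. -/
theorem sub_conn {N : ℕ} {G : SimpleGraph ℕ} (h : Univ N G) {A W : Finset ℕ} {k : ℕ} (hA : A.Nonempty)
    (hAW : A ⊆ W) (hE : ExtProp G A W k) (hM : MinProp G A W) (hk : 2 ≤ k) : (Sub G W).Connected := by
  have : Nonempty W := ⟨⟨_, hAW hA.choose_spec⟩⟩
  refine ⟨fun w w' => ?_⟩
  apply SimpleGraph.reachable_of_edist_ne_top
  rw [sub_edist h hAW hE hM hk, ← coe_dist h]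
  exact ENat.natCast_ne_top _

/-- The subgraph on `W` has diameter `N` if `A` has two points at distance `N`. -/
theorem sub_ediam {N : ℕ} {G : SimpleGraph ℕ} (h : Univ N G) {A W : Finset ℕ} {k : ℕ}
    (hAW : A ⊆ W) (hE : ExtProp G A W k) (hM : MinProp G A W) (hk : 2 ≤ k)
    (hd : ∃ a ∈ A, ∃ b ∈ A, G.edist a b = (N : ℕ∞)) : (Sub G W).ediam = (N : ℕ∞) := by
  apply le_antisymm
  · apply SimpleGraph.ediam_le_of_edist_le
    intro w w'
    rw [sub_edist h hAW hE hM hk, ← h.2.1]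
    exact SimpleGraph.edist_le_ediam
  · obtain ⟨a, ha, b, hb, hab⟩ := hd
    rw [← hab]
    have := sub_edist h hAW hE hM hk ⟨a, hAW ha⟩ ⟨b, hAW hb⟩
    rw [← this]
    exact SimpleGraph.edist_le_ediam

end Pool.Agent.H23.US
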