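import Mathlib

/-!
# [H23 US King] The king graph on `{0, …, N}^ι`, finite pseudometrics in the universal graph (Mathlib only)

The distance of the king graph is the sup distance; hence the universal graph of diameter `N` contains every
finite integer pseudometric space with distances at most `N` (Kuratowski embedding), also over a given finite set
of vertices (homogeneity). Generalises `Pool.Agent.H33.UN.KNG`, `UNI` (four points).
-/

set_option autoImplicit false

namespace Pool.Agent.H23.US

/-- The hypotheses of the problem: `G` is the universal graph of diameter `N`. -/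
def Univ (N : ℕ) (G : SimpleGraph ℕ) : Prop :=
  G.Connected ∧ G.ediam = (N : ℕ∞) ∧
    (∀ (k : ℕ) (x y : Fin k → ℕ),
      (∀ i j, G.edist (x i) (x j) = G.edist (y i) (y j)) →
        ∃ σ : G ≃g G, ∀ i, σ (x i) = y i) ∧
    (∀ (n : ℕ) (H : SimpleGraph (Fin n)), H.Connected → H.ediam = (N : ℕ∞) →
      ∃ f : Fin n → ℕ, ∀ a b, G.edist (f a) (f b) = H.edist a b)

/-- The graph on `{0, …, N}^ι` in which two points are adjacent iff they differ by at most one in every
coordinate. -/
def King (ι : Type) (N : ℕ) : SimpleGraph (ι → Fin (N + 1)) where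
  Adj f g := f ≠ g ∧ ∀ i, (f i : ℕ) ≤ g i + 1 ∧ (g i : ℕ) ≤ f i + 1
  symm := ⟨fun _ _ h => ⟨h.1.symm, fun i => ⟨(h.2 i).2, (h.2 i).1⟩⟩⟩
  loopless := ⟨fun _ h => h.1 rfl⟩

/-- The sup distance on `{0, …, N}^ι`. -/
def supd {ι : Type} [Fintype ι] {N : ℕ} (f g : ι → Fin (N + 1)) : ℕ :=
  Finset.univ.sup fun i => ((f i : ℕ) - g i) + ((g i : ℕ) - f i)

private theorem supd_le_iff {ι : Type} [Fintype ι] {N : ℕ} (f g : ι → Fin (N + 1)) (k : ℕ) :
    supd f g ≤ k ↔ ∀ i, ((f i : ℕ) - g i) + ((g i : ℕ) - f i) ≤ k := by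
  unfold supd
  rw [Finset.sup_le_iff]
  simp

private theorem le_supd {ι : Type} [Fintype ι] {N : ℕ} (f g : ι → Fin (N + 1)) (i : ι) :
    ((f i : ℕ) - g i) + ((g i : ℕ) - f i) ≤ supd f g :=
  (supd_le_iff f g _).1 le_rfl i

theorem supd_le_length {ι : Type} [Fintype ι] {N : ℕ} {f g : ι → Fin (N + 1)} (p : (King ι N).Walk f g) :
    supd f g ≤ p.length := by
  induction p with
  | nil =>
    rw [supd_le_iff]
    intro i
    omega
  | @cons u v w h p ih =>
    rw [supd_le_iff, SimpleGraph.Walk.length_cons]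
    intro i
    have h1 := h.2 i
    have h2 := le_supd v w i
    omega

private def stp {ι : Type} [Fintype ι] {N : ℕ} (f g : ι → Fin (N + 1)) : ι → Fin (N + 1) := fun i =>
  if h : (f i : ℕ) < g i then ⟨f i + 1, by have := (g i).2; omega⟩
  else ⟨(f i : ℕ) - (if (g i : ℕ) < f i then 1 else 0), by have := (f i).2; omega⟩

private theorem stp_val {ι : Type} [Fintype ι] {N : ℕ} (f g : ι → Fin (N + 1)) (i : ι) :
    ((f i : ℕ) < g i ∧ (stp f g i : ℕ) = f i + 1) ∨
      ((g i : ℕ) < f i ∧ (stp f g i : ℕ) = f i - 1) ∨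
        ((f i : ℕ) = g i ∧ (stp f g i : ℕ) = f i) := by
  by_cases h : (f i : ℕ) < g i
  · left
    refine ⟨h, ?_⟩
    simp only [stp, dif_pos h]
  · right
    by_cases h2 : (g i : ℕ) < f i
    · left
      refine ⟨h2, ?_⟩
      simp only [stp, dif_neg h, if_pos h2]
    · right
      refine ⟨by omega, ?_⟩
      simp only [stp, dif_neg h, if_neg h2, Nat.sub_zero]

theorem exists_walk {ι : Type} [Fintype ι] {N : ℕ} (f g : ι → Fin (N + 1)) :
    ∃ p : (King ι N).Walk f g, p.length = supd f g := by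
  induction hk : supd f g generalizing f with
  | zero =>
    have h : f = g := by
      funext i
      apply Fin.ext
      have := le_supd f g i
      omega
    subst h
    exact ⟨.nil, rfl⟩
  | succ k ih =>
    have h1 : supd (stp f g) g = k := by
      apply le_antisymm
      · rw [supd_le_iff]
        intro i
        have h2 := stp_val f g i
        have h3 := le_supd f g i
        omega
      · by_contra hlt
        rw [not_le] at hlt
        have h2 : supd f g ≤ k := by
          rw [supd_le_iff]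
          intro i
          have h3 := stp_val f g i
          have h4 := le_supd (stp f g) g i
          omega
        omega
    obtain ⟨p, hp⟩ := ih (stp f g) h1
    have hadj : (King ι N).Adj f (stp f g) := by
      refine ⟨?_, ?_⟩
      · intro h
        rw [← h] at h1
        omega
      · intro i
        have h2 := stp_val f g i
        omega
    exact ⟨.cons hadj p, by rw [SimpleGraph.Walk.length_cons, hp]⟩

theorem king_edist {ι : Type} [Fintype ι] {N : ℕ} (f g : ι → Fin (N + 1)) :
    (King ι N).edist f g = (supd f g : ℕ∞) := by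
  obtain ⟨p, hp⟩ := exists_walk f g
  apply le_antisymm
  · rw [← hp]
    exact SimpleGraph.edist_le p
  · unfold SimpleGraph.edist
    refine le_iInf fun q => ?_
    exact_mod_cast supd_le_length q

theorem king_conn (ι : Type) [Fintype ι] (N : ℕ) : (King ι N).Connected := by
  have : Nonempty (ι → Fin (N + 1)) := ⟨fun _ => 0⟩
  refine ⟨?_⟩
  intro f g
  obtain ⟨p, _⟩ := exists_walk f g
  exact ⟨p⟩

theorem king_ediam (ι : Type) [Fintype ι] [Nonempty ι] (N : ℕ) : (King ι N).ediam = (N : ℕ∞) := by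
  apply le_antisymm
  · apply SimpleGraph.ediam_le_of_edist_le
    intro f g
    rw [king_edist]
    have : supd f g ≤ N := by
      rw [supd_le_iff]
      intro i
      have h1 := (f i).2
      have h2 := (g i).2
      omega
    exact_mod_cast this
  · have h : (King ι N).edist (fun _ => 0) (fun _ => Fin.last N) = (N : ℕ∞) := by
      rw [king_edist]
      have : supd (fun _ : ι => (0 : Fin (N + 1))) (fun _ => Fin.last N) = N := by
        apply le_antisymm
        · rw [supd_le_iff]
          intro i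
          simp
        · have := le_supd (fun _ : ι => (0 : Fin (N + 1))) (fun _ => Fin.last N) (Classical.arbitrary ι)
          simpa using this
      rw [this]
    rw [← h]
    exact SimpleGraph.edist_le_ediam


theorem edist_hom_le {α β : Type} {G : SimpleGraph α} {H : SimpleGraph β} (φ : G →g H) (a b : α) :
    H.edist (φ a) (φ b) ≤ G.edist a b := by
  unfold SimpleGraph.edist
  refine le_iInf fun p => ?_
  refine (iInf_le _ (p.map φ)).trans ?_
  rw [SimpleGraph.Walk.length_map]

theorem edist_iso {α β : Type} {G : SimpleGraph α} {H : SimpleGraph β} (φ : G ≃g H) (a b : α) :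
    H.edist (φ a) (φ b) = G.edist a b := by
  apply le_antisymm
  · exact edist_hom_le φ.toHom a b
  · have := edist_hom_le φ.symm.toHom (φ a) (φ b)
    have h1 : φ.symm.toHom (φ a) = a := φ.symm_apply_apply a
    have h2 : φ.symm.toHom (φ b) = b := φ.symm_apply_apply b
    rwa [h1, h2] at this

theorem ediam_iso {α β : Type} {G : SimpleGraph α} {H : SimpleGraph β} (φ : G ≃g H) :
    H.ediam = G.ediam := by
  apply le_antisymm
  · rw [SimpleGraph.ediam_eq_iSup_iSup_edist]
    refine iSup_le fun u => iSup_le fun v => ?_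
    obtain ⟨a, rfl⟩ := φ.surjective u
    obtain ⟨b, rfl⟩ := φ.surjective v
    rw [edist_iso]
    exact SimpleGraph.edist_le_ediam
  · rw [SimpleGraph.ediam_eq_iSup_iSup_edist]
    refine iSup_le fun u => iSup_le fun v => ?_
    rw [← edist_iso φ]
    exact SimpleGraph.edist_le_ediam

theorem univ_king {N : ℕ} {G : SimpleGraph ℕ} (h : Univ N G) (ι : Type) [Fintype ι] [DecidableEq ι] [Nonempty ι] :
    ∃ F : (ι → Fin (N + 1)) → ℕ, ∀ f g, G.edist (F f) (F g) = (King ι N).edist f g := by
  let e := Fintype.equivFin (ι → Fin (N + 1))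
  have φ : King ι N ≃g (King ι N).map e.toEmbedding := SimpleGraph.Iso.map e (King ι N)
  have hc : ((King ι N).map e.toEmbedding).Connected := φ.connected_iff.1 (king_conn ι N)
  have hd : ((King ι N).map e.toEmbedding).ediam = (N : ℕ∞) := by
    rw [ediam_iso φ, king_ediam]
  obtain ⟨f, hf⟩ := h.2.2.2 _ _ hc hd
  refine ⟨fun x => f (φ x), fun x y => ?_⟩
  rw [hf, edist_iso φ]

/-- `dist` and `edist` agree. -/
theorem coe_dist {N : ℕ} {G : SimpleGraph ℕ} (h : Univ N G) (x y : ℕ) :
    (G.dist x y : ℕ∞) = G.edist x y := (h.1.preconnected x y).coe_dist_eq_edist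

theorem dist_le {N : ℕ} {G : SimpleGraph ℕ} (h : Univ N G) (x y : ℕ) : G.dist x y ≤ N := by
  have h1 : (G.dist x y : ℕ∞) ≤ (N : ℕ∞) := by
    rw [coe_dist h, ← h.2.1]
    exact SimpleGraph.edist_le_ediam
  exact_mod_cast h1

/-- Every finite pseudometric with integer values at most `N` is realised. -/
theorem points {N : ℕ} {G : SimpleGraph ℕ} (h : Univ N G) {ι : Type} [Fintype ι] [DecidableEq ι] [Nonempty ι]
    (ρ : ι → ι → ℕ) (h0 : ∀ i, ρ i i = 0) (h1 : ∀ i j, ρ i j = ρ j i) (h2 : ∀ i j k, ρ i k ≤ ρ i j + ρ j k)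
    (h3 : ∀ i j, ρ i j ≤ N) :
    ∃ f : ι → ℕ, ∀ i j, G.edist (f i) (f j) = (ρ i j : ℕ∞) := by
  obtain ⟨F, hF⟩ := univ_king h ι
  let g : ι → ι → Fin (N + 1) := fun i k => ⟨ρ i k, Nat.lt_succ_of_le (h3 i k)⟩
  refine ⟨fun i => F (g i), fun i j => ?_⟩
  rw [hF, king_edist]
  congr 1
  unfold supd
  apply le_antisymm
  · refine Finset.sup_le fun k _ => ?_
    show (ρ i k - ρ j k) + (ρ j k - ρ i k) ≤ ρ i j
    have e1 := h2 i j k
    have e2 := h2 j i k
    have e3 := h1 i j
    omega
  · have := Finset.le_sup (f := fun k => ((g i k : ℕ) - g j k) + ((g j k : ℕ) - g i k)) (Finset.mem_univ j)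
    refine le_trans ?_ this
    show ρ i j ≤ (ρ i j - ρ j j) + (ρ j j - ρ i j)
    have e0 := h0 j
    omega

/-- Every finite pseudometric extension of a finite set of vertices is realised over that set. -/
theorem points_over {N : ℕ} {G : SimpleGraph ℕ} (h : Univ N G) (A : Finset ℕ) (hA : A.Nonempty) {P : Type}
    [Fintype P] [DecidableEq P] (ρ : A ⊕ P → A ⊕ P → ℕ) (h0 : ∀ i, ρ i i = 0) (h1 : ∀ i j, ρ i j = ρ j i)
    (h2 : ∀ i j k, ρ i k ≤ ρ i j + ρ j k) (h3 : ∀ i j, ρ i j ≤ N)
    (h4 : ∀ a b : A, ρ (Sum.inl a) (Sum.inl b) = G.dist a b) :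
    ∃ f : A ⊕ P → ℕ, (∀ a : A, f (Sum.inl a) = a) ∧ ∀ i j, G.dist (f i) (f j) = ρ i j := by
  have : Nonempty (A ⊕ P) := ⟨Sum.inl ⟨_, hA.choose_spec⟩⟩
  obtain ⟨f, hf⟩ := points h ρ h0 h1 h2 h3
  let e := Fintype.equivFin A
  obtain ⟨σ, hσ⟩ := h.2.2.1 _ (fun i => f (Sum.inl (e.symm i))) (fun i => ((e.symm i : A) : ℕ)) (by
    intro i j
    rw [hf, h4, coe_dist h])
  refine ⟨fun x => σ (f x), ?_, ?_⟩
  · intro a
    have := hσ (e a)
    rw [e.symm_apply_apply] at this
    exact this
  · intro i j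
    have h5 : (G.dist (σ (f i)) (σ (f j)) : ℕ∞) = (ρ i j : ℕ∞) := by
      rw [coe_dist h, edist_iso σ, hf]
    exact_mod_cast h5

end Pool.Agent.H23.US
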