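import Pool.Agent.H23.US.Transfer
import Pool.Agent.H23.US.Defs

/-!
# [H23 US Main] Assembly
-/

set_option autoImplicit false

open Finset

namespace Pool.Agent.H23.US

/-- A finite set of vertices which contains a copy of every `a`-tuple and two points at distance `N`. -/
theorem exists_A {N : ℕ} {G : SimpleGraph ℕ} (h : Univ N G) (a : ℕ) :
    ∃ A : Finset ℕ, (∃ p ∈ A, ∃ q ∈ A, G.edist p q = (N : ℕ∞)) ∧
      ∀ x : Fin a → ℕ, ∃ σ : G ≃g G, ∀ i, σ (x i) ∈ A := by
  classical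
  obtain ⟨p, q, hpq⟩ := SimpleGraph.exists_edist_eq_ediam_of_ne_top (G := G) (by
    rw [h.2.1]
    exact ENat.natCast_ne_top _)
  -- a representative of each matrix
  let R : (Fin a → Fin a → Fin (N + 1)) → (Fin a → ℕ) → Prop := fun δ x => ∀ i j, G.dist (x i) (x j) = δ i j
  have hr : ∀ δ : Fin a → Fin a → Fin (N + 1), ∃ x : Fin a → ℕ, (∃ y, R δ y) → R δ x := by
    intro δ
    by_cases hδ : ∃ y, R δ y
    · obtain ⟨y, hy⟩ := hδ
      exact ⟨y, fun _ => hy⟩
    · exact ⟨fun _ => 0, fun h' => (hδ h').elim⟩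
  choose r hr using hr
  refine ⟨(univ.biUnion fun δ => univ.image (r δ)) ∪ {p, q}, ⟨p, by simp, q, by simp, by rw [hpq, h.2.1]⟩, ?_⟩
  intro x
  let δ : Fin a → Fin a → Fin (N + 1) := fun i j => ⟨G.dist (x i) (x j), Nat.lt_succ_of_le (dist_le h _ _)⟩
  have h1 : R δ x := fun i j => rfl
  have h2 := hr δ ⟨x, h1⟩
  obtain ⟨σ, hσ⟩ := h.2.2.1 a x (r δ) (by
    intro i j
    rw [← coe_dist h, ← coe_dist h, h1 i j, h2 i j])
  refine ⟨σ, fun i => ?_⟩
  rw [hσ i]
  exact mem_union_left _ (mem_biUnion.2 ⟨δ, mem_univ _, mem_image.2 ⟨i, mem_univ _, rfl⟩⟩)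

/-- The statement is invariant under isomorphism. -/
private theorem EAE_iso {X Y : Type} {G : SimpleGraph X} {H : SimpleGraph Y} (e : G ≃g H) (a b c : ℕ)
    (θ : (Pl a b c → Pl a b c → Prop) → (Pl a b c → Pl a b c → Prop) → (Fin a ⊕ Fin b → Fin a ⊕ Fin b → ℕ∞) →
      (Fin a → Fin c → ℕ∞) → Prop) (hG : EAE G a b c θ) : EAE H a b c θ := by
  obtain ⟨x, hx⟩ := hG
  refine ⟨fun i => e (x i), fun y => ?_⟩
  obtain ⟨z, hz⟩ := hx fun i => e.symm (y i)
  refine ⟨fun i => e (z i), ?_⟩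
  have hv : ∀ i, Sum.elim (fun i => e (x i)) (Sum.elim y fun i => e (z i)) i =
      e (Sum.elim x (Sum.elim (fun i => e.symm (y i)) z) i) := by
    rintro (i | i | i)
    · rfl
    · exact (e.apply_symm_apply (y i)).symm
    · rfl
  have hu : ∀ i, Sum.elim (fun i => e (x i)) y i = e (Sum.elim x (fun i => e.symm (y i)) i) := by
    rintro (i | i)
    · rfl
    · exact (e.apply_symm_apply (y i)).symm
  have e1 : (fun i j => Sum.elim (fun i => e (x i)) (Sum.elim y fun i => e (z i)) i =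
      Sum.elim (fun i => e (x i)) (Sum.elim y fun i => e (z i)) j) =
      fun i j => Sum.elim x (Sum.elim (fun i => e.symm (y i)) z) i =
        Sum.elim x (Sum.elim (fun i => e.symm (y i)) z) j := by
    funext i j
    rw [hv, hv]
    exact propext e.injective.eq_iff
  have e2 : (fun i j => H.Adj (Sum.elim (fun i => e (x i)) (Sum.elim y fun i => e (z i)) i)
      (Sum.elim (fun i => e (x i)) (Sum.elim y fun i => e (z i)) j)) =
      fun i j => G.Adj (Sum.elim x (Sum.elim (fun i => e.symm (y i)) z) i)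
        (Sum.elim x (Sum.elim (fun i => e.symm (y i)) z) j) := by
    funext i j
    rw [hv, hv]
    exact propext e.map_adj_iff
  have e3 : (fun i j => H.edist (Sum.elim (fun i => e (x i)) y i) (Sum.elim (fun i => e (x i)) y j)) =
      fun i j => G.edist (Sum.elim x (fun i => e.symm (y i)) i) (Sum.elim x (fun i => e.symm (y i)) j) := by
    funext i j
    rw [hu, hu, edist_iso e]
  have e4 : (fun i j => H.edist (e (x i)) (e (z j))) = fun i j => G.edist (x i) (z j) := by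
    funext i j
    rw [edist_iso e]
  show θ _ _ _ _
  rw [e1, e2, e3, e4]
  exact hz

/-- The transfer to `W`. -/
private theorem EAE_sub {N : ℕ} {G : SimpleGraph ℕ} (h : Univ N G) {A W : Finset ℕ} {a b c : ℕ}
    (hA : ∀ x : Fin a → ℕ, ∃ σ : G ≃g G, ∀ i, σ (x i) ∈ A) (hAW : A ⊆ W)
    (hE : ExtProp G A W (b + c + 2)) (hM : MinProp G A W)
    (θ : (Pl a b c → Pl a b c → Prop) → (Pl a b c → Pl a b c → Prop) → (Fin a ⊕ Fin b → Fin a ⊕ Fin b → ℕ∞) →
      (Fin a → Fin c → ℕ∞) → Prop) (hG : EAE G a b c θ) : EAE (Sub G W) a b c θ := by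
  classical
  obtain ⟨x₀, hx₀⟩ := hG
  obtain ⟨σ, hσ⟩ := hA x₀
  have hx : ∀ y : Fin b → ℕ, ∃ z : Fin c → ℕ,
      θ (fun i j => Sum.elim (fun i => σ (x₀ i)) (Sum.elim y z) i = Sum.elim (fun i => σ (x₀ i)) (Sum.elim y z) j)
        (fun i j => G.Adj (Sum.elim (fun i => σ (x₀ i)) (Sum.elim y z) i)
          (Sum.elim (fun i => σ (x₀ i)) (Sum.elim y z) j))
        (fun i j => G.edist (Sum.elim (fun i => σ (x₀ i)) y i) (Sum.elim (fun i => σ (x₀ i)) y j))
        (fun i j => G.edist (σ (x₀ i)) (z j)) := by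
    have h1 : EAE G a b c θ := ⟨x₀, hx₀⟩
    intro y
    obtain ⟨z, hz⟩ := hx₀ fun i => σ.symm (y i)
    refine ⟨fun i => σ (z i), ?_⟩
    have hv : ∀ i, Sum.elim (fun i => σ (x₀ i)) (Sum.elim y fun i => σ (z i)) i =
        σ (Sum.elim x₀ (Sum.elim (fun i => σ.symm (y i)) z) i) := by
      rintro (i | i | i)
      · rfl
      · exact (σ.apply_symm_apply (y i)).symm
      · rfl
    have hu : ∀ i, Sum.elim (fun i => σ (x₀ i)) y i = σ (Sum.elim x₀ (fun i => σ.symm (y i)) i) := by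
      rintro (i | i)
      · rfl
      · exact (σ.apply_symm_apply (y i)).symm
    have e1 : (fun i j => Sum.elim (fun i => σ (x₀ i)) (Sum.elim y fun i => σ (z i)) i =
        Sum.elim (fun i => σ (x₀ i)) (Sum.elim y fun i => σ (z i)) j) =
        fun i j => Sum.elim x₀ (Sum.elim (fun i => σ.symm (y i)) z) i =
          Sum.elim x₀ (Sum.elim (fun i => σ.symm (y i)) z) j := by
      funext i j
      rw [hv, hv]
      exact propext σ.injective.eq_iff
    have e2 : (fun i j => G.Adj (Sum.elim (fun i => σ (x₀ i)) (Sum.elim y fun i => σ (z i)) i)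
        (Sum.elim (fun i => σ (x₀ i)) (Sum.elim y fun i => σ (z i)) j)) =
        fun i j => G.Adj (Sum.elim x₀ (Sum.elim (fun i => σ.symm (y i)) z) i)
          (Sum.elim x₀ (Sum.elim (fun i => σ.symm (y i)) z) j) := by
      funext i j
      rw [hv, hv]
      exact propext σ.map_adj_iff
    have e3 : (fun i j => G.edist (Sum.elim (fun i => σ (x₀ i)) y i) (Sum.elim (fun i => σ (x₀ i)) y j)) =
        fun i j => G.edist (Sum.elim x₀ (fun i => σ.symm (y i)) i) (Sum.elim x₀ (fun i => σ.symm (y i)) j) := by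
      funext i j
      rw [hu, hu, edist_iso σ]
    have e4 : (fun i j => G.edist (σ (x₀ i)) (σ (z j))) = fun i j => G.edist (x₀ i) (z j) := by
      funext i j
      rw [edist_iso σ]
    rw [e1, e2, e3, e4]
    exact hz
  refine ⟨fun i => ⟨σ (x₀ i), hAW (hσ i)⟩, fun y => ?_⟩
  obtain ⟨z, hz⟩ := hx fun i => (y i : ℕ)
  -- pull `z`
  have hid : Good G A W (A ∪ univ.image fun i => (y i : ℕ)) id := by
    refine ⟨?_, fun _ _ _ _ h' => h', fun _ _ _ _ => Iff.rfl, fun _ _ _ _ => rfl⟩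
    intro u hu
    rcases mem_union.1 hu with h' | h'
    · exact hAW h'
    · obtain ⟨i, _, rfl⟩ := mem_image.1 h'
      exact (y i).2
  have hcard : ((A ∪ univ.image fun i => (y i : ℕ)) \ A).card + (univ.image z).card ≤ b + c + 2 := by
    have h1 : ((A ∪ univ.image fun i => (y i : ℕ)) \ A).card ≤ b := by
      refine le_trans (card_le_card (t := univ.image fun i => (y i : ℕ)) ?_) ?_
      · intro u hu
        rw [mem_sdiff, mem_union] at hu
        rcases hu.1 with h' | h'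
        · exact (hu.2 h').elim
        · exact h'
      · refine le_trans card_image_le ?_
        rw [card_univ, Fintype.card_fin]
    have h2 : (univ.image z).card ≤ c := by
      refine le_trans card_image_le ?_
      rw [card_univ, Fintype.card_fin]
    omega
  obtain ⟨g, hg1, hg2⟩ := hid.many h hE subset_union_left (univ.image z) hcard
  have hzD : ∀ i, z i ∈ (A ∪ univ.image fun i => (y i : ℕ)) ∪ univ.image z := fun i =>
    mem_union_right _ (mem_image_of_mem _ (mem_univ i))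
  refine ⟨fun i => ⟨g (z i), hg2.mem _ (hzD i)⟩, ?_⟩
  have hxD : ∀ i, σ (x₀ i) ∈ A ∪ univ.image fun i => (y i : ℕ) := fun i => mem_union_left _ (hσ i)
  have hyD : ∀ i, (y i : ℕ) ∈ A ∪ univ.image fun i => (y i : ℕ) := fun i =>
    mem_union_right _ (mem_image.2 ⟨i, mem_univ _, rfl⟩)
  have hv : ∀ i : Pl a b c, ((Sum.elim (fun i => (⟨σ (x₀ i), hAW (hσ i)⟩ : W))
      (Sum.elim y fun i => ⟨g (z i), hg2.mem _ (hzD i)⟩) i : W) : ℕ) =
      g (Sum.elim (fun i => σ (x₀ i)) (Sum.elim (fun i => (y i : ℕ)) z) i) := by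
    rintro (i | i | i)
    · exact (hg1 _ (hxD i)).symm
    · exact (hg1 _ (hyD i)).symm
    · rfl
  have hvD : ∀ i : Pl a b c, Sum.elim (fun i => σ (x₀ i)) (Sum.elim (fun i => (y i : ℕ)) z) i ∈
      (A ∪ univ.image fun i => (y i : ℕ)) ∪ univ.image z := by
    rintro (i | i | i)
    · exact mem_union_left _ (hxD i)
    · exact mem_union_left _ (hyD i)
    · exact hzD i
  have hu : ∀ i : Fin a ⊕ Fin b, ((Sum.elim (fun i => (⟨σ (x₀ i), hAW (hσ i)⟩ : W)) y i : W) : ℕ) =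
      Sum.elim (fun i => σ (x₀ i)) (fun i => (y i : ℕ)) i := by
    rintro (i | i) <;> rfl
  have e1 : (fun i j : Pl a b c => Sum.elim (fun i => (⟨σ (x₀ i), hAW (hσ i)⟩ : W))
      (Sum.elim y fun i => ⟨g (z i), hg2.mem _ (hzD i)⟩) i =
      Sum.elim (fun i => (⟨σ (x₀ i), hAW (hσ i)⟩ : W)) (Sum.elim y fun i => ⟨g (z i), hg2.mem _ (hzD i)⟩) j) =
      fun i j => Sum.elim (fun i => σ (x₀ i)) (Sum.elim (fun i => (y i : ℕ)) z) i =
        Sum.elim (fun i => σ (x₀ i)) (Sum.elim (fun i => (y i : ℕ)) z) j := by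
    funext i j
    rw [← Subtype.coe_inj, hv, hv]
    exact propext ⟨hg2.inj _ (hvD i) _ (hvD j), fun h' => by rw [h']⟩
  have e2 : (fun i j : Pl a b c => (Sub G W).Adj (Sum.elim (fun i => (⟨σ (x₀ i), hAW (hσ i)⟩ : W))
      (Sum.elim y fun i => ⟨g (z i), hg2.mem _ (hzD i)⟩) i)
      (Sum.elim (fun i => (⟨σ (x₀ i), hAW (hσ i)⟩ : W)) (Sum.elim y fun i => ⟨g (z i), hg2.mem _ (hzD i)⟩) j)) =
      fun i j => G.Adj (Sum.elim (fun i => σ (x₀ i)) (Sum.elim (fun i => (y i : ℕ)) z) i)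
        (Sum.elim (fun i => σ (x₀ i)) (Sum.elim (fun i => (y i : ℕ)) z) j) := by
    funext i j
    rw [SimpleGraph.comap_adj, hv, hv]
    exact propext (hg2.adj _ (hvD i) _ (hvD j))
  have e3 : (fun i j => (Sub G W).edist (Sum.elim (fun i => (⟨σ (x₀ i), hAW (hσ i)⟩ : W)) y i)
      (Sum.elim (fun i => (⟨σ (x₀ i), hAW (hσ i)⟩ : W)) y j)) =
      fun i j => G.edist (Sum.elim (fun i => σ (x₀ i)) (fun i => (y i : ℕ)) i)
        (Sum.elim (fun i => σ (x₀ i)) (fun i => (y i : ℕ)) j) := by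
    funext i j
    rw [sub_edist h hAW hE hM (by omega), hu, hu]
  have e4 : (fun (i : Fin a) (j : Fin c) => (Sub G W).edist (⟨σ (x₀ i), hAW (hσ i)⟩ : W)
      ⟨g (z j), hg2.mem _ (hzD j)⟩) = fun i j => G.edist (σ (x₀ i)) (z j) := by
    funext i j
    rw [sub_edist h hAW hE hM (by omega)]
    show G.edist (σ (x₀ i)) (g (z j)) = _
    rw [← coe_dist h, ← coe_dist h, SimpleGraph.dist_comm, hg2.typ _ (hzD j) _ (hσ i), SimpleGraph.dist_comm]
  show θ _ _ _ _
  rw [e1, e2, e3, e4]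
  exact hz

/-- **The theorem.** -/
theorem main {N : ℕ} (hN : 2 ≤ N) {G : SimpleGraph ℕ} (h : Univ N G) (a b c : ℕ) :
    ∃ (n : ℕ) (H : SimpleGraph (Fin n)), H.Connected ∧ H.ediam = (N : ℕ∞) ∧
      ∀ θ : (Pl a b c → Pl a b c → Prop) → (Pl a b c → Pl a b c → Prop) →
        (Fin a ⊕ Fin b → Fin a ⊕ Fin b → ℕ∞) → (Fin a → Fin c → ℕ∞) → Prop,
        EAE G a b c θ → EAE H a b c θ := by
  classical
  obtain ⟨A, hA1, hA2⟩ := exists_A h a
  have hA : A.Nonempty := by
    obtain ⟨p, hp, _⟩ := hA1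
    exact ⟨p, hp⟩
  obtain ⟨W, hAW, hE, hM⟩ := exists_W hN h A hA (b + c + 2)
  have e := Fintype.equivFin W
  have φ : Sub G W ≃g (Sub G W).map e.toEmbedding := SimpleGraph.Iso.map e (Sub G W)
  refine ⟨_, (Sub G W).map e.toEmbedding, φ.connected_iff.1 (sub_conn h hA hAW hE hM (by omega)), ?_, ?_⟩
  · rw [ediam_iso φ, sub_ediam h hAW hE hM (by omega) hA1]
  · intro θ hθ
    exact EAE_iso φ a b c θ (EAE_sub h hA2 hAW hE hM θ hθ)

end Pool.Agent.H23.US
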