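import Pool.Agent.H23.US.Iso

/-!
# [H23 US Transfer] Pulling finitely many vertices into `W`
-/

set_option autoImplicit false

open Finset

namespace Pool.Agent.H23.US

/-- `f` maps `D` into `W` and keeps equality, adjacency and the distances to `A`. -/
structure Good (G : SimpleGraph ℕ) (A W D : Finset ℕ) (f : ℕ → ℕ) : Prop where
  mem : ∀ u ∈ D, f u ∈ W
  inj : ∀ u ∈ D, ∀ v ∈ D, f u = f v → u = v
  adj : ∀ u ∈ D, ∀ v ∈ D, (G.Adj (f u) (f v) ↔ G.Adj u v)
  typ : ∀ u ∈ D, ∀ a ∈ A, G.dist (f u) a = G.dist u a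

theorem Good.fix {N : ℕ} {G : SimpleGraph ℕ} (h : Univ N G) {A W D : Finset ℕ} {f : ℕ → ℕ}
    (hf : Good G A W D f) {a : ℕ} (ha : a ∈ A) (haD : a ∈ D) : f a = a := by
  have h1 := hf.typ a haD a ha
  rw [SimpleGraph.dist_self] at h1
  exact h.1.dist_eq_zero_iff.1 h1

theorem Good.out {N : ℕ} {G : SimpleGraph ℕ} (h : Univ N G) {A W D : Finset ℕ} {f : ℕ → ℕ}
    (hf : Good G A W D f) {u : ℕ} (hu : u ∈ D) (huA : u ∉ A) : f u ∉ A := by
  intro hfu
  have h1 := hf.typ u hu _ hfu
  rw [SimpleGraph.dist_self] at h1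
  exact huA ((h.1.dist_eq_zero_iff.1 h1.symm) ▸ hfu)

/-- One more vertex. -/
theorem Good.step {N : ℕ} {G : SimpleGraph ℕ} (h : Univ N G) {A W : Finset ℕ} {k : ℕ}
    (hE : ExtProp G A W k) {D : Finset ℕ} (hAD : A ⊆ D) (hD : (D \ A).card ≤ k) {f : ℕ → ℕ}
    (hf : Good G A W D f) {u : ℕ} (hu : u ∉ D) :
    ∃ g, (∀ v ∈ D, g v = f v) ∧ Good G A W (insert u D) g := by
  classical
  have huA : u ∉ A := fun h' => hu (hAD h')
  have hcl : ∀ q : ℕ, G.Adj u q → ∀ a ∈ A, G.dist u a ≤ G.dist q a + 1 ∧ G.dist q a ≤ G.dist u a + 1 := by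
    intro q hq a _
    have h1 : G.dist u a ≤ G.dist u q + G.dist q a := h.1.dist_triangle
    have h2 : G.dist q a ≤ G.dist q u + G.dist u a := h.1.dist_triangle
    rw [SimpleGraph.dist_eq_one_iff_adj.2 hq] at h1
    rw [SimpleGraph.dist_eq_one_iff_adj.2 hq.symm] at h2
    omega
  obtain ⟨w, hw1, hw2, hw3, hw4, hw5⟩ := hE u huA ((D \ A).image f) (((D \ A).filter fun q => G.Adj u q).image f)
    (by
      intro q hq
      obtain ⟨v, hv, rfl⟩ := mem_image.1 hq
      rw [mem_sdiff] at hv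
      exact mem_sdiff.2 ⟨hf.mem v hv.1, hf.out h hv.1 hv.2⟩)
    (le_trans card_image_le hD) (image_subset_image (filter_subset _ _))
    (by
      intro q hq a ha
      obtain ⟨v, hv, rfl⟩ := mem_image.1 hq
      rw [mem_filter, mem_sdiff] at hv
      rw [hf.typ v hv.1.1 a ha]
      exact hcl v hv.2 a ha)
  have hne : ∀ v ∈ D, v ≠ u := fun v hv h' => hu (h' ▸ hv)
  have hadj : ∀ v ∈ D, (G.Adj w (f v) ↔ G.Adj u v) := by
    intro v hv
    by_cases hvA : v ∈ A
    · rw [hf.fix h hvA hv, ← SimpleGraph.dist_eq_one_iff_adj, ← SimpleGraph.dist_eq_one_iff_adj, hw4 v hvA]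
    · rw [hw5 (f v) (mem_image_of_mem f (mem_sdiff.2 ⟨hv, hvA⟩))]
      constructor
      · intro h'
        obtain ⟨v', hv', he⟩ := mem_image.1 h'
        rw [mem_filter, mem_sdiff] at hv'
        rw [← hf.inj v' hv'.1.1 v hv he]
        exact hv'.2
      · intro h'
        exact mem_image_of_mem f (mem_filter.2 ⟨mem_sdiff.2 ⟨hv, hvA⟩, h'⟩)
  have hnew : ∀ v ∈ D, w ≠ f v := by
    intro v hv h'
    by_cases hvA : v ∈ A
    · rw [hf.fix h hvA hv] at h'
      exact hw2 (h' ▸ hvA)
    · exact hw3 (h' ▸ mem_image_of_mem f (mem_sdiff.2 ⟨hv, hvA⟩))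
  refine ⟨fun v => if v = u then w else f v, fun v hv => if_neg (hne v hv), ?_, ?_, ?_, ?_⟩
  · intro v hv
    rcases mem_insert.1 hv with e | hv1
    · simpa [e] using hw1
    · simpa [hne v hv1] using hf.mem v hv1
  · intro v hv v' hv' he
    rcases mem_insert.1 hv with e | hv1 <;> rcases mem_insert.1 hv' with e' | hv1'
    · rw [e, e']
    · simp only [if_pos e, if_neg (hne v' hv1')] at he
      exact (hnew v' hv1' he).elim
    · simp only [if_pos e', if_neg (hne v hv1)] at he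
      exact (hnew v hv1 he.symm).elim
    · simp only [if_neg (hne v hv1), if_neg (hne v' hv1')] at he
      exact hf.inj v hv1 v' hv1' he
  · intro v hv v' hv'
    rcases mem_insert.1 hv with e | hv1 <;> rcases mem_insert.1 hv' with e' | hv1'
    · simp [e, e']
    · simp only [if_pos e, if_neg (hne v' hv1')]
      rw [e]
      exact hadj v' hv1'
    · simp only [if_pos e', if_neg (hne v hv1)]
      rw [SimpleGraph.adj_comm, hadj v hv1, SimpleGraph.adj_comm, e']
    · simp only [if_neg (hne v hv1), if_neg (hne v' hv1')]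
      exact hf.adj v hv1 v' hv1'
  · intro v hv a ha
    rcases mem_insert.1 hv with e | hv1
    · simpa [e] using hw4 a ha
    · simpa [hne v hv1] using hf.typ v hv1 a ha

/-- Finitely many more vertices. -/
theorem Good.many {N : ℕ} {G : SimpleGraph ℕ} (h : Univ N G) {A W : Finset ℕ} {k : ℕ}
    (hE : ExtProp G A W k) {D : Finset ℕ} (hAD : A ⊆ D) {f : ℕ → ℕ} (hf : Good G A W D f) (Z : Finset ℕ)
    (hD : (D \ A).card + Z.card ≤ k) :
    ∃ g, (∀ v ∈ D, g v = f v) ∧ Good G A W (D ∪ Z) g := by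
  classical
  induction Z using Finset.induction_on with
  | empty => exact ⟨f, fun _ _ => rfl, by rwa [union_empty]⟩
  | @insert u Z hu ih =>
    rw [card_insert_of_notMem hu] at hD
    obtain ⟨g, hg1, hg2⟩ := ih (by omega)
    by_cases huD : u ∈ D ∪ Z
    · refine ⟨g, hg1, ?_⟩
      have : D ∪ insert u Z = D ∪ Z := by
        rw [union_insert, insert_eq_of_mem huD]
      rwa [this]
    · have h1 : ((D ∪ Z) \ A).card ≤ k := by
        have h2 : (D ∪ Z) \ A ⊆ (D \ A) ∪ Z := by
          intro v hv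
          rw [mem_sdiff, mem_union] at hv
          rw [mem_union, mem_sdiff]
          rcases hv.1 with h' | h'
          · exact Or.inl ⟨h', hv.2⟩
          · exact Or.inr h'
        have h3 := card_le_card h2
        have h4 := card_union_le (D \ A) Z
        omega
      obtain ⟨g', hg1', hg2'⟩ := hg2.step h hE (hAD.trans subset_union_left) h1 huD
      refine ⟨g', fun v hv => ?_, ?_⟩
      · rw [hg1' v (mem_union_left _ hv), hg1 v hv]
      · rwa [union_insert]

end Pool.Agent.H23.US
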