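import Pool.Agent.H23.US.Bits
import Pool.Agent.H23.US.King

/-!
# [H23 US W] The finite set `W` of vertices over a given finite set `A`

`T`: the functions `a ↦ d(u, a)` on `A`, `u ∉ A`. `W = A ⊔ T × Fin M` with the distances `d` on `A`, `τ a` between
`a` and `(τ, m)`, and between two points `p ≠ q` of `T × Fin M`: `1` if their functions differ by at most one
everywhere and the bit of `p, q` is set, otherwise the maximum of `2` and the sup distance of their functions.
-/

set_option autoImplicit false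

open Finset

namespace Pool.Agent.H23.US

/-- Property (5): extension over `A` and at most `k` more points of `W`, adjacency only. -/
def ExtProp (G : SimpleGraph ℕ) (A W : Finset ℕ) (k : ℕ) : Prop :=
  ∀ u, u ∉ A → ∀ Q S : Finset ℕ, Q ⊆ W \ A → Q.card ≤ k → S ⊆ Q →
    (∀ q ∈ S, ∀ a ∈ A, G.dist u a ≤ G.dist q a + 1 ∧ G.dist q a ≤ G.dist u a + 1) →
    ∃ w ∈ W, w ∉ A ∧ w ∉ Q ∧ (∀ a ∈ A, G.dist w a = G.dist u a) ∧ ∀ q ∈ Q, (G.Adj w q ↔ q ∈ S)

/-- Property (6): distances outside `A` are at most two or given by `A`. -/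
def MinProp (G : SimpleGraph ℕ) (A W : Finset ℕ) : Prop :=
  ∀ p ∈ W, p ∉ A → ∀ q ∈ W, q ∉ A → G.dist p q ≤ 2 ∨
    ∃ a ∈ A, G.dist p q ≤ (G.dist p a - G.dist q a) + (G.dist q a - G.dist p a)

section construction

variable {N : ℕ} (G : SimpleGraph ℕ) (A : Finset ℕ)

/-- The realised functions. -/
private abbrev Typ (N : ℕ) : Type := {τ : A → Fin (N + 1) // ∃ u, u ∉ A ∧ ∀ a : A, (τ a : ℕ) = G.dist u a}

private noncomputable instance (N : ℕ) : Fintype (Typ G A N) := by
  classical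
  exact Subtype.fintype _

private noncomputable instance (N : ℕ) : DecidableEq (Typ G A N) := Classical.decEq _

/-- The sup distance of two functions. -/
private def dm {N : ℕ} (τ σ : Typ G A N) : ℕ := supd τ.1 σ.1

private theorem dm_le {N : ℕ} (τ σ : Typ G A N) (k : ℕ) :
    dm G A τ σ ≤ k ↔ ∀ a, ((τ.1 a : ℕ) - σ.1 a) + ((σ.1 a : ℕ) - τ.1 a) ≤ k := by
  unfold dm supd
  rw [Finset.sup_le_iff]
  simp

private theorem le_dm {N : ℕ} (τ σ : Typ G A N) (a : A) :
    ((τ.1 a : ℕ) - σ.1 a) + ((σ.1 a : ℕ) - τ.1 a) ≤ dm G A τ σ :=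
  (dm_le G A τ σ _).1 le_rfl a

/-- The distance outside `A`. -/
private noncomputable def rho {N M : ℕ} (ω : Typ G A N × Fin M → Typ G A N × Fin M → Bool)
    (p q : Typ G A N × Fin M) : ℕ :=
  if p = q then 0 else if dm G A p.1 q.1 ≤ 1 ∧ ω p q = true then 1 else max 2 (dm G A p.1 q.1)

private theorem rho_self {N M : ℕ} (ω : Typ G A N × Fin M → Typ G A N × Fin M → Bool)
    (p : Typ G A N × Fin M) : rho G A ω p p = 0 := by
  unfold rho
  rw [if_pos rfl]

private theorem dm_self {N : ℕ} (τ : Typ G A N) : dm G A τ τ = 0 := by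
  apply Nat.le_zero.1
  rw [dm_le]
  intro a
  omega

private theorem dm_comm {N : ℕ} (τ σ : Typ G A N) : dm G A τ σ = dm G A σ τ := by
  apply le_antisymm
  · rw [dm_le]
    intro a
    have := le_dm G A σ τ a
    omega
  · rw [dm_le]
    intro a
    have := le_dm G A τ σ a
    omega

private theorem dm_tri {N : ℕ} (τ σ υ : Typ G A N) : dm G A τ υ ≤ dm G A τ σ + dm G A σ υ := by
  rw [dm_le]
  intro a
  have h1 := le_dm G A τ σ a
  have h2 := le_dm G A σ υ a
  omega

private theorem dm_le_rho {N M : ℕ} (ω : Typ G A N × Fin M → Typ G A N × Fin M → Bool)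
    (p q : Typ G A N × Fin M) : dm G A p.1 q.1 ≤ rho G A ω p q := by
  unfold rho
  split_ifs with h1 h2
  · rw [h1, dm_self]
  · exact h2.1
  · exact le_max_right _ _

private theorem one_le_rho {N M : ℕ} (ω : Typ G A N × Fin M → Typ G A N × Fin M → Bool)
    {p q : Typ G A N × Fin M} (h : p ≠ q) : 1 ≤ rho G A ω p q := by
  unfold rho
  rw [if_neg h]
  split_ifs with h2
  · exact le_rfl
  · exact le_trans (by norm_num) (le_max_left _ _)

private theorem rho_le {N M : ℕ} (ω : Typ G A N × Fin M → Typ G A N × Fin M → Bool)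
    (p q : Typ G A N × Fin M) : rho G A ω p q ≤ max 2 (dm G A p.1 q.1) := by
  unfold rho
  split_ifs with h1 h2
  · exact Nat.zero_le _
  · exact le_trans (by norm_num) (le_max_left _ _)
  · exact le_rfl

private theorem rho_comm {N M : ℕ} (ω : Typ G A N × Fin M → Typ G A N × Fin M → Bool)
    (hω : ∀ p q, ω p q = ω q p) (p q : Typ G A N × Fin M) : rho G A ω p q = rho G A ω q p := by
  unfold rho
  rw [dm_comm G A q.1 p.1, hω q p]
  simp only [eq_comm (a := q) (b := p)]

private theorem rho_tri {N M : ℕ} (ω : Typ G A N × Fin M → Typ G A N × Fin M → Bool)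
    (p q r : Typ G A N × Fin M) : rho G A ω p r ≤ rho G A ω p q + rho G A ω q r := by
  by_cases h1 : p = q
  · subst h1
    exact Nat.le_add_left _ _
  by_cases h2 : q = r
  · subst h2
    exact Nat.le_add_right _ _
  have h3 := one_le_rho G A ω h1
  have h4 := one_le_rho G A ω h2
  have h5 := dm_le_rho G A ω p q
  have h6 := dm_le_rho G A ω q r
  have h7 := dm_tri G A p.1 q.1 r.1
  refine le_trans (rho_le G A ω p r) (max_le ?_ ?_)
  · omega
  · omega

private theorem rho_eq_one {N M : ℕ} (ω : Typ G A N × Fin M → Typ G A N × Fin M → Bool)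
    {p q : Typ G A N × Fin M} (h : p ≠ q) :
    rho G A ω p q = 1 ↔ dm G A p.1 q.1 ≤ 1 ∧ ω p q = true := by
  unfold rho
  rw [if_neg h]
  split_ifs with h2
  · exact ⟨fun _ => h2, fun _ => rfl⟩
  · constructor
    · intro h3
      have : 2 ≤ max 2 (dm G A p.1 q.1) := le_max_left _ _
      omega
    · exact fun h3 => (h2 h3).elim

/-- The distances on `A ⊔ T × Fin M`. -/
private noncomputable def Rho {N M : ℕ} (ω : Typ G A N × Fin M → Typ G A N × Fin M → Bool) :
    A ⊕ (Typ G A N × Fin M) → A ⊕ (Typ G A N × Fin M) → ℕ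
  | Sum.inl a, Sum.inl b => G.dist a b
  | Sum.inl a, Sum.inr p => p.1.1 a
  | Sum.inr p, Sum.inl a => p.1.1 a
  | Sum.inr p, Sum.inr q => rho G A ω p q

private theorem typ_pos {N : ℕ} (h : Univ N G) (τ : Typ G A N) (a : A) : 1 ≤ (τ.1 a : ℕ) := by
  obtain ⟨u, hu, hτ⟩ := τ.2
  rw [hτ a]
  rcases Nat.eq_zero_or_pos (G.dist u a) with h0 | h0
  · exfalso
    apply hu
    rw [h.1.dist_eq_zero_iff.1 h0]
    exact a.2
  · exact h0

private theorem typ_le {N : ℕ} (h : Univ N G) (τ : Typ G A N) (a b : A) :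
    (τ.1 a : ℕ) ≤ G.dist a b + τ.1 b := by
  obtain ⟨u, hu, hτ⟩ := τ.2
  rw [hτ a, hτ b]
  have h1 : G.dist u a ≤ G.dist u b + G.dist b a := h.1.dist_triangle
  have h2 : G.dist (b : ℕ) a = G.dist (a : ℕ) b := SimpleGraph.dist_comm
  omega

private theorem typ_ge {N : ℕ} (h : Univ N G) (τ : Typ G A N) (a b : A) :
    G.dist a b ≤ (τ.1 a : ℕ) + τ.1 b := by
  obtain ⟨u, hu, hτ⟩ := τ.2
  rw [hτ a, hτ b]
  have h1 : G.dist (a : ℕ) b ≤ G.dist a u + G.dist u b := h.1.dist_triangle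
  have h2 : G.dist (a : ℕ) u = G.dist u a := SimpleGraph.dist_comm
  omega

private theorem dm_le_add {N : ℕ} (h : Univ N G) (τ σ : Typ G A N) (a : A) :
    dm G A τ σ ≤ (τ.1 a : ℕ) + σ.1 a := by
  rw [dm_le]
  intro b
  have h1 := typ_le G A h τ b a
  have h2 := typ_ge G A h σ b a
  have h3 := typ_le G A h σ b a
  have h4 := typ_ge G A h τ b a
  omega

private theorem Rho_tri {N M : ℕ} (h : Univ N G) (ω : Typ G A N × Fin M → Typ G A N × Fin M → Bool) :
    ∀ i j k, Rho G A ω i k ≤ Rho G A ω i j + Rho G A ω j k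
  | Sum.inl a, Sum.inl b, Sum.inl c => h.1.dist_triangle
  | Sum.inl a, Sum.inl b, Sum.inr p => typ_le G A h p.1 a b
  | Sum.inl a, Sum.inr p, Sum.inl c => typ_ge G A h p.1 a c
  | Sum.inr p, Sum.inl b, Sum.inl c => by
    show (p.1.1 c : ℕ) ≤ p.1.1 b + G.dist b c
    have h1 := typ_le G A h p.1 c b
    have h2 : G.dist (c : ℕ) b = G.dist (b : ℕ) c := SimpleGraph.dist_comm
    omega
  | Sum.inl a, Sum.inr p, Sum.inr q => by
    show (q.1.1 a : ℕ) ≤ p.1.1 a + rho G A ω p q
    have h1 := dm_le_rho G A ω p q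
    have h2 := le_dm G A p.1 q.1 a
    omega
  | Sum.inr p, Sum.inr q, Sum.inl a => by
    show (p.1.1 a : ℕ) ≤ rho G A ω p q + q.1.1 a
    have h1 := dm_le_rho G A ω p q
    have h2 := le_dm G A p.1 q.1 a
    omega
  | Sum.inr p, Sum.inl a, Sum.inr q => by
    show rho G A ω p q ≤ (p.1.1 a : ℕ) + q.1.1 a
    have h1 := typ_pos G A h p.1 a
    have h2 := typ_pos G A h q.1 a
    have h3 := dm_le_add G A h p.1 q.1 a
    refine le_trans (rho_le G A ω p q) (max_le ?_ h3)
    omega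
  | Sum.inr p, Sum.inr q, Sum.inr r => rho_tri G A ω p q r

private theorem Rho_le {N M : ℕ} (hN : 2 ≤ N) (h : Univ N G) (ω : Typ G A N × Fin M → Typ G A N × Fin M → Bool) :
    ∀ i j, Rho G A ω i j ≤ N
  | Sum.inl a, Sum.inl b => dist_le h _ _
  | Sum.inl a, Sum.inr p => Nat.le_of_lt_succ (p.1.1 a).2
  | Sum.inr p, Sum.inl a => Nat.le_of_lt_succ (p.1.1 a).2
  | Sum.inr p, Sum.inr q => by
    refine le_trans (rho_le G A ω p q) (max_le hN ?_)
    rw [dm_le]
    intro a
    have h1 := (p.1.1 a).2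
    have h2 := (q.1.1 a).2
    omega

private theorem Rho_self {N M : ℕ} (ω : Typ G A N × Fin M → Typ G A N × Fin M → Bool) :
    ∀ i, Rho G A ω i i = 0
  | Sum.inl _ => SimpleGraph.dist_self
  | Sum.inr p => rho_self G A ω p

private theorem Rho_comm {N M : ℕ} (ω : Typ G A N × Fin M → Typ G A N × Fin M → Bool)
    (hω : ∀ p q, ω p q = ω q p) : ∀ i j, Rho G A ω i j = Rho G A ω j i
  | Sum.inl _, Sum.inl _ => SimpleGraph.dist_comm
  | Sum.inl _, Sum.inr _ => rfl
  | Sum.inr _, Sum.inl _ => rfl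
  | Sum.inr p, Sum.inr q => rho_comm G A ω hω p q

end construction

/-- **The set `W`.** -/
theorem exists_W {N : ℕ} (hN : 2 ≤ N) {G : SimpleGraph ℕ} (h : Univ N G) (A : Finset ℕ) (hA : A.Nonempty) (k : ℕ) :
    ∃ W : Finset ℕ, A ⊆ W ∧ ExtProp G A W k ∧ MinProp G A W := by
  classical
  obtain ⟨M, ω, hω, hb⟩ := exists_bits (Typ G A N) k
  obtain ⟨f, hf1, hf2⟩ := points_over h A hA (Rho G A ω) (Rho_self G A ω) (Rho_comm G A ω hω) (Rho_tri G A h ω)
    (Rho_le G A hN h ω) (fun _ _ => rfl)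
  have hinj : Function.Injective fun p => f (Sum.inr p) := by
    intro p q hpq
    by_contra hne
    have h1 := hf2 (Sum.inr p) (Sum.inr q)
    have h2 := one_le_rho G A ω hne
    change f (Sum.inr p) = f (Sum.inr q) at hpq
    rw [hpq, SimpleGraph.dist_self] at h1
    change 0 = rho G A ω p q at h1
    omega
  have hout : ∀ p, f (Sum.inr p) ∉ A := by
    intro p hp
    have h1 := hf2 (Sum.inr p) (Sum.inl ⟨_, hp⟩)
    rw [hf1, SimpleGraph.dist_self] at h1
    change 0 = (p.1.1 ⟨_, hp⟩ : ℕ) at h1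
    have h2 := typ_pos G A h p.1 ⟨_, hp⟩
    omega
  have hrep : ∀ q ∈ univ.image f, q ∉ A → ∃ p, f (Sum.inr p) = q := by
    intro q hq hqA
    obtain ⟨x, _, rfl⟩ := mem_image.1 hq
    rcases x with a | p
    · exfalso
      apply hqA
      rw [hf1]
      exact a.2
    · exact ⟨p, rfl⟩
  refine ⟨univ.image f, ?_, ?_, ?_⟩
  · intro a ha
    exact mem_image.2 ⟨Sum.inl ⟨a, ha⟩, mem_univ _, hf1 ⟨a, ha⟩⟩
  · intro u hu Q S hQ hQk hSQ hS
    -- the function of `u`
    let τ : Typ G A N := ⟨fun a => ⟨G.dist u a, Nat.lt_succ_of_le (dist_le h _ _)⟩, u, hu, fun _ => rfl⟩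
    let F : Finset (Typ G A N × Fin M) := univ.filter fun p => f (Sum.inr p) ∈ Q
    let S' : Finset (Typ G A N × Fin M) := univ.filter fun p => f (Sum.inr p) ∈ S
    have hF : F.card ≤ k := by
      refine le_trans (card_le_card_of_injOn (fun p => f (Sum.inr p)) ?_ ?_) hQk
      · intro p hp
        exact (mem_filter.1 hp).2
      · exact hinj.injOn
    have hS' : S' ⊆ F := by
      intro p hp
      exact mem_filter.2 ⟨mem_univ _, hSQ (mem_filter.1 hp).2⟩
    obtain ⟨m, hm, hp⟩ := hb F hF S' hS' τ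
    refine ⟨f (Sum.inr (τ, m)), mem_image.2 ⟨_, mem_univ _, rfl⟩, hout _, ?_, ?_, ?_⟩
    · intro hq
      exact hm (mem_filter.2 ⟨mem_univ _, hq⟩)
    · intro a ha
      have h1 := hf2 (Sum.inr (τ, m)) (Sum.inl ⟨a, ha⟩)
      rw [hf1] at h1
      exact h1
    · intro q hq
      obtain ⟨p, rfl⟩ := hrep q (mem_sdiff.1 (hQ hq)).1 (mem_sdiff.1 (hQ hq)).2
      have hpF : p ∈ F := mem_filter.2 ⟨mem_univ _, hq⟩
      have hne : (τ, m) ≠ p := fun h' => hm (h' ▸ hpF)
      have h1 := hf2 (Sum.inr (τ, m)) (Sum.inr p)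
      change _ = rho G A ω (τ, m) p at h1
      rw [← SimpleGraph.dist_eq_one_iff_adj, h1, rho_eq_one G A ω hne, hp p hpF]
      constructor
      · rintro ⟨_, h2⟩
        exact (mem_filter.1 h2).2
      · intro h2
        refine ⟨?_, mem_filter.2 ⟨mem_univ _, h2⟩⟩
        rw [dm_le]
        intro a
        have h3 := hS _ h2 a a.2
        have h4 := hf2 (Sum.inr p) (Sum.inl a)
        rw [hf1] at h4
        change _ = (p.1.1 a : ℕ) at h4
        rw [h4] at h3
        change (G.dist u a - (p.1.1 a : ℕ)) + ((p.1.1 a : ℕ) - G.dist u a) ≤ 1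
        omega
  · intro p hp hpA q hq hqA
    obtain ⟨p', rfl⟩ := hrep p hp hpA
    obtain ⟨q', rfl⟩ := hrep q hq hqA
    by_contra hno
    push Not at hno
    obtain ⟨h1, h2⟩ := hno
    have h3 := hf2 (Sum.inr p') (Sum.inr q')
    change _ = rho G A ω p' q' at h3
    have h4 := rho_le G A ω p' q'
    rw [← h3] at h4
    have h5 : dm G A p'.1 q'.1 ≤ G.dist (f (Sum.inr p')) (f (Sum.inr q')) - 1 := by
      rw [dm_le]
      intro a
      have h6 := h2 a a.2
      have h7 := hf2 (Sum.inr p') (Sum.inl a)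
      have h8 := hf2 (Sum.inr q') (Sum.inl a)
      rw [hf1] at h7 h8
      change _ = (p'.1.1 a : ℕ) at h7
      change _ = (q'.1.1 a : ℕ) at h8
      rw [h7, h8] at h6
      omega
    have h9 : max 2 (dm G A p'.1 q'.1) ≤ G.dist (f (Sum.inr p')) (f (Sum.inr q')) - 1 := by
      apply max_le
      · omega
      · exact h5
    omega

end Pool.Agent.H23.US
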